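import Pool.Agent.Q187.Pulse.Mixing

/-!
# MP_459901_an: an exponentially mixing diffeomorphism of the flat two-torus whose pulsed
diffusion has no uniform exponential growth of the decay exponent

The map is `φ = h ∘ A ∘ h⁻¹` with `A` the cat map `(2x+y, x+y)` and
`h(x,y) = (x, y + sin(2πx)/(2π))`.  If the growth estimate held, every finite Fourier block of
`e^{νΔ}U` would have super-exponentially small eigenvalues, so all traces
`∑_{k≠0} e^{-4π²ν|k|²} ⟨e_k, U e_k⟩` would vanish for `ν ∈ (0, ν₀]`; by analyticity in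
`q = e^{-4π²ν}` the sum over `|k|² = 1` would vanish, but it equals `2 J₀(1) J₁(1) ≠ 0`.
-/

open MeasureTheory UnitAddTorus
open scoped ContDiff ComplexConjugate

attribute [local instance] instMeasureSpaceUnitAddCircle
attribute [local instance] instIsAddHaarMeasureUnitAddCircleVolume
attribute [local instance] instIsProbabilityMeasureUnitAddCircleVolume

namespace Pool.Agent.Results.MP_459901_an.NoUniformGrowth

open Q187.Pulse

/-- There is a smooth volume preserving diffeomorphism `φ` of the flat two-torus which is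
exponentially mixing, and for all `C > 0`, `γ > 1`, `ν₀ > 0` there are `ν ∈ (0, ν₀]`, `n ≥ 1` and
a real-valued mean-zero `θ₀ ∈ L²` with `‖θ_n‖ > exp(-νγⁿ/C) ‖θ₀‖`. -/
theorem result : ∃ φ : T2 ≃ₜ T2, IsSmoothDiffeo φ ∧
    MeasurePreserving φ (volume : Measure T2) (volume : Measure T2) ∧ ExpMixing φ ∧
    ∀ C γ ν₀ : ℝ, 0 < C → 1 < γ → 0 < ν₀ →
      ∃ ν : ℝ, 0 < ν ∧ ν ≤ ν₀ ∧ ∃ n : ℕ, 1 ≤ n ∧ ∃ θ : ℕ → T2 → ℂ, IsPulsed φ ν θ ∧
        (∃ θ₀ : T2 → ℝ, θ 0 = fun x => (θ₀ x : ℂ)) ∧ ∫ x, θ 0 x = 0 ∧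
        Real.exp (-(ν * γ ^ n / C)) * l2norm (θ 0) < l2norm (θ n) := by
  refine ⟨phi, isSmoothDiffeo_phi, measurePreserving_phi, expMixing_phi, ?_⟩
  intro C γ ν₀ hC hγ hν₀
  by_contra hcon
  push Not at hcon
  have hG : Growth phi C γ ν₀ := fun ν h1 h2 n h3 θ h4 h5 h6 => hcon ν h1 h2 n h3 θ h4 h5 h6
  have hπ : 0 < 4 * Real.pi ^ 2 := by have := Real.pi_pos; positivity
  set q₀ : ℝ := Real.exp (-(4 * Real.pi ^ 2 * ν₀)) with hq₀
  have hq₀1 : q₀ < 1 := by
    rw [hq₀, Real.exp_lt_one_iff]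
    have : 0 < 4 * Real.pi ^ 2 * ν₀ := by positivity
    linarith
  refine shell_sum_ne_zero (shell_sum_eq_zero (uk phi)
    (fun k => norm_uk_le phi measurePreserving_phi k) q₀ (Real.exp_pos _).le hq₀1 ?_)
  intro q hq1 hq2
  have hq0 : 0 < q := (Real.exp_pos _).trans_le hq1
  have hlog : Real.log q < 0 := Real.log_neg hq0 hq2
  have hν1 : 0 < -Real.log q / (4 * Real.pi ^ 2) := div_pos (by linarith) hπ
  have hν2 : -Real.log q / (4 * Real.pi ^ 2) ≤ ν₀ := by
    rw [div_le_iff₀ hπ]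
    have h1 : -(4 * Real.pi ^ 2 * ν₀) ≤ Real.log q := by
      rw [← Real.log_exp (-(4 * Real.pi ^ 2 * ν₀))]
      exact Real.log_le_log (Real.exp_pos _) hq1
    linarith
  have h := tsum_eq_zero measurePreserving_phi hC hγ hG hν1 hν2
  have he : Real.exp (-(4 * Real.pi ^ 2 * (-Real.log q / (4 * Real.pi ^ 2)))) = q := by
    have : -(4 * Real.pi ^ 2 * (-Real.log q / (4 * Real.pi ^ 2))) = Real.log q := by
      field_simp
    rw [this, Real.exp_log hq0]
  rw [he] at h
  exact h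

end Pool.Agent.Results.MP_459901_an.NoUniformGrowth
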